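import Pool.Agent.Q38.AE.Lower

/-!
# The exact size of the exceptional set of Oesterlé's inequality for all exponents up to `3 / 7`

For every `1 / 3 < M ≤ 3 / 7` and every `K > M` the number of the abc triples with `rad (abc) ≤ X`
which violate `c < rad (abc) ^ M` but satisfy `c < rad (abc) ^ K` is `X ^ (1 - M + o(1))`, and so is
the number of all exceptions to the exponent `M` of height `c ≤ X ^ K`. For `K ≤ 1 / 2` this is true
for every `1 / 3 < M < K`. For every `M ≥ 3 / 7` there are at most `X ^ (4 / 7 + o(1))` exceptions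
of height `≤ X ^ K`, and for `M < 1 / 2` at least `X ^ (1 - M - o(1))`.
-/

set_option autoImplicit false

namespace Pool.Agent.Results.MP_2ec8a3_nt.ExponentModerateHeights

open Filter Topology

/-- the product of the primes dividing `n` -/
def radical (n : ℕ) : ℕ := ∏ p ∈ n.primeFactors, p

/-- the radical of `abc` for the triple `(a, b, a + b)` written `(a, b)` -/
def rad3 (p : ℕ × ℕ) : ℕ := radical (p.1 * p.2 * (p.1 + p.2))

/-- the abc triples `(a, b, a + b)`, written `(a, b)`, of radical at most `X`: `a` and `b` are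
coprime, `1 ≤ a ≤ b` -/
def triples (X : ℝ) : Set (ℕ × ℕ) :=
  {p | 0 < p.1 ∧ p.1 ≤ p.2 ∧ Nat.Coprime p.1 p.2 ∧ (rad3 p : ℝ) ≤ X}

/-- those among them with `rad (abc) ^ M ≤ c ≤ X ^ K`: the exceptions to Oesterlé's inequality with
the exponent `M` of height at most `X ^ K` -/
def exceptions (M K X : ℝ) : Set (ℕ × ℕ) :=
  {p | p ∈ triples X ∧ (rad3 p : ℝ) ^ M ≤ ((p.1 + p.2 : ℕ) : ℝ) ∧
    ((p.1 + p.2 : ℕ) : ℝ) ≤ X ^ K}

/-- those among them with `rad (abc) ^ M ≤ c < rad (abc) ^ K`: the exceptions to the exponent `M`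
which are no exceptions to the exponent `K` -/
def between (M K X : ℝ) : Set (ℕ × ℕ) :=
  {p | p ∈ triples X ∧ (rad3 p : ℝ) ^ M ≤ ((p.1 + p.2 : ℕ) : ℝ) ∧
    ((p.1 + p.2 : ℕ) : ℝ) < (rad3 p : ℝ) ^ K}

open Pool.Agent.Q38.AE

theorem exc_eq (M K X : ℝ) : exceptions M K X = exc M K X := rfl

theorem btw_eq (M K X : ℝ) : between M K X = btw M K X := rfl

/-- **The exponent of the number of exceptions.** (1) For `1 / 3 < M < K`, if `M ≤ 3 / 7` or
`K ≤ 1 / 2`, both numbers are `X ^ (1 - M + o(1))`. (2) For all `M ≥ 3 / 7` and `K` there are at most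
`C X ^ (4 / 7 + ε)` exceptions of height `≤ X ^ K`. (3) For `1 / 3 < M < 1 / 2`, `M < K`, both numbers
are `≥ X ^ (1 - M - ε)` for large `X`. -/
theorem result :
    (∀ M K X : ℝ, (exceptions M K X).Finite ∧ (0 ≤ K → between M K X ⊆ exceptions M K X)) ∧
    (∀ M K : ℝ, 1 / 3 < M → M < K → (M ≤ 3 / 7 ∨ K ≤ 1 / 2) →
      Tendsto (fun X : ℝ => Real.log ((exceptions M K X).ncard : ℝ) / Real.log X) atTop
        (𝓝 (1 - M)) ∧
      Tendsto (fun X : ℝ => Real.log ((between M K X).ncard : ℝ) / Real.log X) atTop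
        (𝓝 (1 - M))) ∧
    (∀ M K ε : ℝ, 3 / 7 ≤ M → 0 < ε → ∃ C : ℝ, 0 < C ∧ ∀ X : ℝ, 1 ≤ X →
      ((exceptions M K X).ncard : ℝ) ≤ C * X ^ (4 / 7 + ε)) ∧
    (∀ M K ε : ℝ, 1 / 3 < M → M < 1 / 2 → M < K → 0 < ε → ∃ X₀ : ℝ, ∀ X : ℝ, X₀ ≤ X →
      X ^ (1 - M - ε) ≤ ((between M K X).ncard : ℝ)) := by
  refine ⟨fun M K X => ⟨exc_fin M K X, btw_sub⟩, ?_, ?_, ?_⟩
  · intro M K hM hMK h
    have hM0 : 0 < M := by linarith
    have hM1 : M < 1 / 2 := by rcases h with h | h <;> linarith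
    have hK0 : 0 ≤ K := by linarith
    have hL : ∀ s : ℝ, M ≤ s → s ≤ K → s * Pool.Agent.W221.ABC7.Fx (1 / s) ≤ 1 - M := by
      intro s h1 h2
      rcases h with h | h
      · refine (f_le (by linarith)).trans (max_le (by linarith) (by linarith))
      · rw [f_half (by linarith) (by linarith)]
        linarith
    have hsub : ∀ X : ℝ, ((between M K X).ncard : ℝ) ≤ ((exceptions M K X).ncard : ℝ) :=
      fun X => by exact_mod_cast Set.ncard_le_ncard (btw_sub hK0) (exc_fin M K X)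
    have hup : ∀ ε : ℝ, 0 < ε → ∃ C : ℝ, 0 < C ∧ ∀ X : ℝ, 1 ≤ X →
        ((exceptions M K X).ncard : ℝ) ≤ C * X ^ (1 - M + ε) :=
      fun ε hε => upper hM0 hMK.le hL hε
    have hlo : ∀ ε : ℝ, 0 < ε → ∃ X₀ : ℝ, ∀ X : ℝ, X₀ ≤ X →
        X ^ (1 - M - ε) ≤ ((between M K X).ncard : ℝ) :=
      fun ε hε => lower hM hM1 hMK hε
    refine ⟨tendsto_exponent hup fun ε hε => ?_, tendsto_exponent (fun ε hε => ?_) hlo⟩
    · obtain ⟨X₀, h1⟩ := hlo ε hε
      exact ⟨X₀, fun X hX => (h1 X hX).trans (hsub X)⟩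
    · obtain ⟨C, hC, h1⟩ := hup ε hε
      exact ⟨C, hC, fun X hX => (hsub X).trans (h1 X hX)⟩
  · intro M K ε hM hε
    have hM0 : 0 < M := by linarith
    obtain ⟨C, hC, h1⟩ := upper (M := M) (K := max M K) (L := 4 / 7) hM0 (le_max_left _ _)
      (fun s h1 _ => (f_le (by linarith)).trans (max_le (by linarith) le_rfl)) hε
    refine ⟨C, hC, fun X hX => le_trans ?_ (h1 X hX)⟩
    have hsub : exceptions M K X ⊆ exc M (max M K) X := by
      rintro p ⟨h1, h2, h3⟩
      exact ⟨h1, h2, h3.trans (Real.rpow_le_rpow_of_exponent_le hX (le_max_right _ _))⟩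
    exact_mod_cast Set.ncard_le_ncard hsub (exc_fin _ _ _)
  · intro M K ε hM hM1 hMK hε
    exact lower hM hM1 hMK hε

end Pool.Agent.Results.MP_2ec8a3_nt.ExponentModerateHeights
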