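import Pool.Agent.Y854.AB.Count

/-!
# Oesterlé's inequality for the abc triples with a member near a sequence

Let `v ≥ 1` be a sequence of exponent of convergence at most `τ` (for `v_n = (n + 1) ^ κ` this is `1 / κ`, for
`v_n = b ^ n` it is `0`), and `0 ≤ θ < 1`. For all `α > 0` outside a set of Hausdorff dimension at most
`τ / (1 - θ)` and all `A` there is `M` such that for all `n` every abc triple `a + b = c` with a member `m` such that
`|m - α v_n| ≤ v_n ^ θ` and with `c ≤ m ^ A` (for `m = c` this is no restriction) satisfies `c < rad (abc) ^ M`.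
For given countably many sequences of exponent of convergence `0` the exceptional `α`, for all the sequences and all
`θ < 1` and `A` together, form a set of Hausdorff dimension zero. For a prescribed `M ≥ 3 / 2` the exceptional `α` (for
which the inequality is violated for infinitely many `n`) have dimension at most `(4 A / (7 M) + τ) / (1 - θ)`.
-/

set_option autoImplicit false

namespace Pool.Agent.Results.MP_2ec8a3_nt.MembersNearSequences

open Finset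

/-- the product of the primes dividing `n` -/
def radical (n : ℕ) : ℕ := ∏ p ∈ n.primeFactors, p

/-- every abc triple `(a, b, a + b)` with `a + b ≤ m ^ A` one of whose members is `m` satisfies
`a + b < rad (a b (a + b)) ^ M` -/
def Good (M A : ℝ) (m : ℕ) : Prop :=
  ∀ a b : ℕ, 0 < a → 0 < b → Nat.Coprime a b → (a = m ∨ b = m ∨ a + b = m) →
    ((a + b : ℕ) : ℝ) ≤ (m : ℝ) ^ A → ((a + b : ℕ) : ℝ) < (radical (a * b * (a + b)) : ℝ) ^ M

/-- the exponent of convergence of the sequence `v` is at most `τ` -/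
def ExpLe (v : ℕ → ℝ) (τ : ℝ) : Prop := ∀ t : ℝ, τ < t → Summable (fun n : ℕ => (v n) ^ (-t))

lemma radical_pos (n : ℕ) : 0 < radical n :=
  Finset.prod_pos fun _ hp => (Nat.prime_of_mem_primeFactors hp).pos

/-- the radical of a triple is at least two -/
lemma two_le_radical {a b : ℕ} (ha : 0 < a) (hb : 0 < b) : 2 ≤ radical (a * b * (a + b)) := by
  have hn : 2 ≤ a * b * (a + b) := by
    have h1 : 1 ≤ a * b := Nat.mul_pos ha hb
    calc 2 ≤ 1 * (a + b) := by omega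
      _ ≤ _ := Nat.mul_le_mul_right _ h1
  have h0 : a * b * (a + b) ≠ 0 := by omega
  obtain ⟨p, hp, hpn⟩ := Nat.exists_prime_and_dvd (n := a * b * (a + b)) (by omega)
  have h1 : p ∣ radical (a * b * (a + b)) :=
    Finset.dvd_prod_of_mem _ (Nat.mem_primeFactors.2 ⟨hp, hpn, h0⟩)
  exact hp.two_le.trans (Nat.le_of_dvd (radical_pos _) h1)

lemma radical_eq (n : ℕ) : radical n = Pool.Agent.H785R2.ABC.rad n := rfl

/-- for exponents below `m ^ A` with a prescribed `M` -/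
lemma good_of {M A : ℝ} (hM : 0 < M) {m : ℕ} (h : m ∉ Pool.Agent.Y854.AB.Bad 1 (1 / M) A) :
    Good M A m := by
  intro a b ha hb hab hmem hht
  by_contra hcon
  push Not at hcon
  refine h ⟨a, b, ha, hb, hab, hmem, hht, ?_⟩
  rw [one_mul, ← radical_eq]
  have h1 : (0 : ℝ) ≤ (radical (a * b * (a + b)) : ℝ) := Nat.cast_nonneg _
  calc (radical (a * b * (a + b)) : ℝ) = ((radical (a * b * (a + b)) : ℝ) ^ M) ^ (1 / M) := by
        rw [← Real.rpow_mul h1, mul_one_div_cancel hM.ne', Real.rpow_one]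
    _ ≤ _ := Real.rpow_le_rpow (by positivity) hcon (by positivity)

lemma Good.mono {M M' A A' : ℝ} (hM : M ≤ M') (hA : A' ≤ A) {m : ℕ} (h : Good M A m) :
    Good M' A' m := by
  intro a b ha hb hab hmem hht
  have hm : 1 ≤ m := by rcases hmem with h | h | h <;> omega
  have hm1 : (1 : ℝ) ≤ m := by exact_mod_cast hm
  have h1 := h a b ha hb hab hmem (hht.trans (Real.rpow_le_rpow_of_exponent_le hm1 hA))
  refine h1.trans_le (Real.rpow_le_rpow_of_exponent_le ?_ hM)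
  exact_mod_cast radical_pos _

/-- finitely many members -/
lemma good_small (A : ℝ) (B : ℕ) : ∃ M : ℝ, ∀ m : ℕ, m ≤ B → Good M A m := by
  obtain ⟨K, hK⟩ := pow_unbounded_of_one_lt (max 1 ((B : ℝ) ^ max A 0)) (one_lt_two : (1 : ℝ) < 2)
  refine ⟨K, fun m hm a b ha hb hab hmem hht => ?_⟩
  have hm1 : (1 : ℝ) ≤ m := by
    have : 1 ≤ m := by rcases hmem with h | h | h <;> omega
    exact_mod_cast this
  have h1 : (m : ℝ) ^ A ≤ (B : ℝ) ^ max A 0 :=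
    (Real.rpow_le_rpow_of_exponent_le hm1 (le_max_left _ _)).trans
      (Real.rpow_le_rpow (by positivity) (by exact_mod_cast hm) (le_max_right _ _))
  have h2 : (2 : ℝ) ≤ (radical (a * b * (a + b)) : ℝ) := by exact_mod_cast two_le_radical ha hb
  rw [Real.rpow_natCast]
  calc ((a + b : ℕ) : ℝ) ≤ (m : ℝ) ^ A := hht
    _ ≤ (B : ℝ) ^ max A 0 := h1
    _ ≤ max 1 ((B : ℝ) ^ max A 0) := le_max_right _ _
    _ < 2 ^ K := hK
    _ ≤ _ := pow_le_pow_left₀ (by norm_num) h2 K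

/-- a prescribed exponent -/
lemma fixed {v : ℕ → ℝ} {τ A θ M : ℝ} (hv : ∀ n, 1 ≤ v n) (hτ : 0 ≤ τ) (hE : ExpLe v τ)
    (hA : 1 ≤ A) (hθ1 : θ < 1) (hM : 3 / 2 ≤ M) :
    ∃ E : Set ℝ, dimH E ≤ ENNReal.ofReal ((4 * A / (7 * M) + τ) / (1 - θ)) ∧ ∀ α : ℝ, 0 < α →
      α ∉ E → ∃ n₀ : ℕ, ∀ n : ℕ, n₀ ≤ n → ∀ m : ℕ, |(m : ℝ) - α * v n| ≤ (v n) ^ θ →
        Good M A m := by
  have hM0 : 0 < M := by linarith
  obtain ⟨E, h1, h2⟩ := Pool.Agent.Y854.AB.win 1 (1 / M) A (by positivity) (by linarith) hv hτ hE hθ1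
  have hFx : Pool.Agent.W221.ABC7.Fx (1 / M) = 4 * (1 / M) / 7 := by
    unfold Pool.Agent.W221.ABC7.Fx
    rw [if_pos]
    rw [div_le_div_iff₀ hM0 (by norm_num)]
    linarith
  rw [hFx, show A * (4 * (1 / M) / 7) = 4 * A / (7 * M) by field_simp] at h1
  refine ⟨E, h1, fun α hα hαE => ?_⟩
  obtain ⟨n₀, hn⟩ := h2 α hα hαE
  exact ⟨n₀, fun n hn1 m hm => good_of hM0 (hn n hn1 m hm).2⟩

/-- some exponent, one `A` -/
lemma some_M {v : ℕ → ℝ} {τ A θ : ℝ} (hv : ∀ n, 1 ≤ v n) (hτ : 0 ≤ τ) (hE : ExpLe v τ)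
    (hA : 1 ≤ A) (hθ1 : θ < 1) :
    ∃ E : Set ℝ, dimH E ≤ ENNReal.ofReal (τ / (1 - θ)) ∧ ∀ α : ℝ, 0 < α → α ∉ E →
      ∃ M : ℝ, ∀ n m : ℕ, |(m : ℝ) - α * v n| ≤ (v n) ^ θ → Good M A m := by
  have h1θ : 0 < 1 - θ := by linarith
  have hfix : ∀ k : ℕ, ∃ E : Set ℝ,
      dimH E ≤ ENNReal.ofReal ((4 * A / (7 * ((k : ℝ) + 2)) + τ) / (1 - θ)) ∧
      ∀ α : ℝ, 0 < α → α ∉ E → ∃ n₀ : ℕ, ∀ n : ℕ, n₀ ≤ n → ∀ m : ℕ,
        |(m : ℝ) - α * v n| ≤ (v n) ^ θ → Good ((k : ℝ) + 2) A m := by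
    intro k
    have hk : (0 : ℝ) ≤ k := Nat.cast_nonneg k
    exact fixed hv hτ hE hA hθ1 (by linarith)
  choose E hE1 hE2 using hfix
  refine ⟨⋂ k, E k, ?_, fun α hα hαE => ?_⟩
  · apply ENNReal.le_of_forall_pos_le_add
    intro ε hε _
    have hε' : (0 : ℝ) < ε := by exact_mod_cast hε
    obtain ⟨k, hk⟩ := exists_nat_gt (4 * A / (7 * (ε * (1 - θ))))
    have hk0 : (0 : ℝ) ≤ k := Nat.cast_nonneg k
    refine (dimH_mono (Set.iInter_subset E k)).trans ((hE1 k).trans ?_)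
    have h2 : (4 * A / (7 * ((k : ℝ) + 2)) + τ) / (1 - θ) ≤ τ / (1 - θ) + ε := by
      rw [div_le_iff₀ h1θ, add_mul, div_mul_cancel₀ _ h1θ.ne', add_comm]
      gcongr
      rw [div_le_iff₀ (by positivity)]
      rw [div_lt_iff₀ (by positivity)] at hk
      nlinarith [mul_pos hε' h1θ]
    calc ENNReal.ofReal ((4 * A / (7 * ((k : ℝ) + 2)) + τ) / (1 - θ))
        ≤ ENNReal.ofReal (τ / (1 - θ) + ε) := ENNReal.ofReal_le_ofReal h2
      _ = ENNReal.ofReal (τ / (1 - θ)) + ε := by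
        rw [ENNReal.ofReal_add (by positivity) (by positivity), ENNReal.ofReal_coe_nnreal]
  · rw [Set.mem_iInter, not_forall] at hαE
    obtain ⟨k, hk⟩ := hαE
    obtain ⟨n₀, hn⟩ := hE2 k α hα hk
    -- the first windows
    set B : ℕ := ∑ n ∈ range n₀, ⌈α * v n + (v n) ^ θ⌉₊ with hB
    obtain ⟨M₁, hM₁⟩ := good_small A B
    refine ⟨max ((k : ℝ) + 2) M₁, fun n m hm => ?_⟩
    rcases lt_or_ge n n₀ with h | h
    · refine (hM₁ m ?_).mono (le_max_right _ _) le_rfl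
      have h3 : (m : ℝ) ≤ α * v n + (v n) ^ θ := by
        have := (abs_le.1 hm).2
        linarith
      have h4 : m ≤ ⌈α * v n + (v n) ^ θ⌉₊ := by
        exact_mod_cast h3.trans (Nat.le_ceil _)
      exact h4.trans (Finset.single_le_sum (f := fun n => ⌈α * v n + (v n) ^ θ⌉₊)
        (fun _ _ => Nat.zero_le _) (mem_range.2 h))
    · exact (hn n h m hm).mono (le_max_left _ _) le_rfl

/-- some exponent for each `A` -/
lemma some_M_all {v : ℕ → ℝ} {τ θ : ℝ} (hv : ∀ n, 1 ≤ v n) (hτ : 0 ≤ τ) (hE : ExpLe v τ)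
    (hθ1 : θ < 1) :
    ∃ E : Set ℝ, dimH E ≤ ENNReal.ofReal (τ / (1 - θ)) ∧ ∀ α : ℝ, 0 < α → α ∉ E →
      ∀ A : ℝ, ∃ M : ℝ, ∀ n m : ℕ, |(m : ℝ) - α * v n| ≤ (v n) ^ θ → Good M A m := by
  choose E hE1 hE2 using fun k : ℕ => some_M (A := (k : ℝ) + 1) hv hτ hE
    (by have : (0 : ℝ) ≤ k := Nat.cast_nonneg k
        linarith) hθ1
  refine ⟨⋃ k, E k, ?_, fun α hα hαE A => ?_⟩
  · rw [dimH_iUnion]
    exact iSup_le hE1
  · obtain ⟨k, hk⟩ := exists_nat_ge A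
    have h1 : α ∉ E k := fun h => hαE (Set.mem_iUnion.2 ⟨k, h⟩)
    obtain ⟨M, hM⟩ := hE2 k α hα h1
    exact ⟨M, fun n m hm => (hM n m hm).mono le_rfl (by linarith)⟩

/-- **Theorem.** (1) Let `v ≥ 1` be a sequence of exponent of convergence at most `τ ≥ 0` and `0 ≤ θ < 1`. There is a
set `E` of Hausdorff dimension at most `τ / (1 - θ)` such that for each `α > 0` outside `E` and each `A` there is `M`
such that for all `n` all the integers `m` with `|m - α v_n| ≤ v_n ^ θ` are `Good M A`. (2) For countably many sequences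
of exponent of convergence `0` there is a set `E` of Hausdorff dimension zero such that this holds for each `α > 0`
outside `E`, for all these sequences and all `θ < 1`. (3) For given `A ≥ 1` and `M ≥ 3 / 2` there is a set `E` of
dimension at most `(4 A / (7 M) + τ) / (1 - θ)` such that for `α > 0` outside `E` and all but finitely many `n` all
these `m` are `Good M A`. (4) The sequences `(n + 1) ^ κ` and `b ^ n` have exponent of convergence at most `1 / κ`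
and `0`. -/
theorem result :
    (∀ (v : ℕ → ℝ) (τ θ : ℝ), (∀ n, 1 ≤ v n) → 0 ≤ τ → ExpLe v τ → 0 ≤ θ → θ < 1 →
      ∃ E : Set ℝ, dimH E ≤ ENNReal.ofReal (τ / (1 - θ)) ∧ ∀ α : ℝ, 0 < α → α ∉ E →
        ∀ A : ℝ, ∃ M : ℝ, ∀ n m : ℕ, |(m : ℝ) - α * v n| ≤ (v n) ^ θ → Good M A m) ∧
    (∀ v : ℕ → ℕ → ℝ, (∀ i n, 1 ≤ v i n) → (∀ i, ExpLe (v i) 0) →
      ∃ E : Set ℝ, dimH E = 0 ∧ ∀ α : ℝ, 0 < α → α ∉ E → ∀ (i : ℕ) (θ : ℝ), θ < 1 →
        ∀ A : ℝ, ∃ M : ℝ, ∀ n m : ℕ, |(m : ℝ) - α * v i n| ≤ (v i n) ^ θ → Good M A m) ∧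
    (∀ (v : ℕ → ℝ) (τ A θ M : ℝ), (∀ n, 1 ≤ v n) → 0 ≤ τ → ExpLe v τ → 1 ≤ A → 0 ≤ θ → θ < 1 →
      3 / 2 ≤ M →
      ∃ E : Set ℝ, dimH E ≤ ENNReal.ofReal ((4 * A / (7 * M) + τ) / (1 - θ)) ∧ ∀ α : ℝ, 0 < α →
        α ∉ E → ∃ n₀ : ℕ, ∀ n : ℕ, n₀ ≤ n → ∀ m : ℕ, |(m : ℝ) - α * v n| ≤ (v n) ^ θ →
          Good M A m) ∧
    (∀ κ : ℝ, 0 < κ → ExpLe (fun n : ℕ => ((n : ℝ) + 1) ^ κ) (1 / κ)) ∧
    (∀ b : ℝ, 1 < b → ExpLe (fun n : ℕ => b ^ n) 0) := by
  refine ⟨fun v τ θ hv hτ hE _ hθ1 => some_M_all hv hτ hE hθ1, fun v hv hE => ?_,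
    fun v τ A θ M hv hτ hE hA _ hθ1 hM => fixed hv hτ hE hA hθ1 hM,
    fun κ hκ => Pool.Agent.Y854.GM.expLe_pow κ hκ, fun b hb => Pool.Agent.Y854.GM.expLe_geom b hb⟩
  have hθ : ∀ k : ℕ, 1 - 1 / ((k : ℝ) + 1) < 1 := by
    intro k
    have : 0 < 1 / ((k : ℝ) + 1) := by positivity
    linarith
  choose E hE1 hE2 using fun p : ℕ × ℕ => some_M_all (hv p.1) le_rfl (hE p.1) (hθ p.2)
  refine ⟨⋃ p, E p, ?_, fun α hα hαE i θ hθ1 A => ?_⟩
  · rw [dimH_iUnion, ← nonpos_iff_eq_zero]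
    refine iSup_le fun p => (hE1 p).trans ?_
    rw [zero_div, ENNReal.ofReal_zero]
  · obtain ⟨k, hk⟩ := exists_nat_one_div_lt (show 0 < 1 - θ by linarith)
    have h1 : α ∉ E (i, k) := fun h => hαE (Set.mem_iUnion.2 ⟨_, h⟩)
    obtain ⟨M, hM⟩ := hE2 (i, k) α hα h1 A
    refine ⟨M, fun n m hm => hM n m (hm.trans ?_)⟩
    exact Real.rpow_le_rpow_of_exponent_le (hv i n) (by linarith)

end Pool.Agent.Results.MP_2ec8a3_nt.MembersNearSequences
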