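import Mathlib
import Pool.Agent.TH876.PW.Gap
import Pool.Agent.TH876.PW.Classes
import Pool.Agent.TH876.PW.Vanish
import Pool.Agent.TH876.PW.Choose
import Pool.Agent.TH876.PW.Core
import Pool.Agent.TH876.PW.Rads

set_option autoImplicit false

/-!
# abc triples with one member a perfect power and the radical of the other two small

The radical of the perfect power is not restricted.  The number of such triples of height at most
`exp H`, with the radical of the product of the two other members at most `X` and composed of primes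
at most `y`, is at most `C y X ^ ((m + 1) / (2 m) + ε) (1 + log H)`.
-/

namespace Pool.Agent.Results.MP_2ec8a3_nt.PowerPlusTwoSmallRadicals

open Finset

/-- the product of the primes dividing `n` is at most `X`, and each of them is at most `y` -/
def Small (X y : ℝ) (n : ℕ) : Prop :=
  ((∏ q ∈ n.primeFactors, q : ℕ) : ℝ) ≤ X ∧ ∀ q ∈ n.primeFactors, (q : ℝ) ≤ y

/-- the abc triples `(a, b, a + b)`, written `(a, b)`: coprime positive integers, `log (a + b) ≤ H`,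
one of the three members is the `m`-th power of an integer, and the product of the two other
members is `Small` -/
def Triples (m : ℕ) (X y H : ℝ) : Set (ℕ × ℕ) :=
  {p | 0 < p.1 ∧ 0 < p.2 ∧ Nat.Coprime p.1 p.2 ∧ Real.log ((p.1 + p.2 : ℕ) : ℝ) ≤ H ∧
    ∃ z : ℕ, (p.1 + p.2 = z ^ m ∧ Small X y (p.1 * p.2)) ∨
      (p.1 = z ^ m ∧ Small X y ((p.1 + p.2) * p.2)) ∨
      (p.2 = z ^ m ∧ Small X y ((p.1 + p.2) * p.1))}

open Pool.Agent.TH876.PW

theorem small_lr {X y : ℝ} {u w : ℤ} (hu : u ≠ 0) (hw : w ≠ 0)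
    (hc : Nat.Coprime u.natAbs w.natAbs) (h : Small X y (u.natAbs * w.natAbs)) :
    lr (sp u) + lr (sp w) ≤ Real.log X ∧ (∀ p ∈ sp u, (p : ℝ) ≤ y) ∧ ∀ p ∈ sp w, (p : ℝ) ≤ y := by
  obtain ⟨h1, h2⟩ := h
  have hu' : u.natAbs ≠ 0 := Int.natAbs_ne_zero.2 hu
  have hw' : w.natAbs ≠ 0 := Int.natAbs_ne_zero.2 hw
  have hpf : (u.natAbs * w.natAbs).primeFactors = sp u ∪ sp w := Nat.primeFactors_mul hu' hw'
  have hdis : Disjoint (sp u) (sp w) := hc.disjoint_primeFactors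
  rw [hpf] at h1 h2
  refine ⟨?_, fun p hp => h2 p (mem_union_left _ hp), fun p hp => h2 p (mem_union_right _ hp)⟩
  have hpos : ∀ q ∈ sp u ∪ sp w, q.Prime := by
    intro q hq
    rcases mem_union.1 hq with hq | hq
    · exact Nat.prime_of_mem_primeFactors hq
    · exact Nat.prime_of_mem_primeFactors hq
  have e : lr (sp u) + lr (sp w) = Real.log ((∏ q ∈ sp u ∪ sp w, q : ℕ) : ℝ) := by
    unfold lr
    rw [← sum_union hdis]
    push_cast
    rw [Real.log_prod]
    intro q hq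
    exact_mod_cast (hpos q hq).ne_zero
  rw [e]
  refine Real.log_le_log ?_ h1
  exact_mod_cast prod_pos fun q hq => (hpos q hq).pos

theorem piece {m : ℕ} {ε C : ℝ}
    (hC : ∀ X y H : ℝ, 1 ≤ X → 1 ≤ y → 1 ≤ H → ∀ F : Finset (ℤ × ℤ × ℕ),
      (∀ x ∈ F, Sol m x.1 x.2.1 x.2.2 ∧ ht x.1 x.2.1 ≤ H ∧
        lr (sp x.1) + lr (sp x.2.1) ≤ Real.log X ∧
        (∀ p ∈ sp x.1, (p : ℝ) ≤ y) ∧ ∀ p ∈ sp x.2.1, (p : ℝ) ≤ y) →
      (F.card : ℝ) ≤ C * y * X ^ (((m : ℝ) + 1) / (2 * m) + ε) * (1 + Real.log H))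
    {X y H : ℝ} (hX : 1 ≤ X) (hy : 1 ≤ y) (hH : 1 ≤ H) (T : Finset (ℕ × ℕ))
    (u w : ℕ × ℕ → ℤ) (hinj : ∀ p ∈ T, ∀ q ∈ T, u p = u q → w p = w q → p = q)
    (hT : ∀ p ∈ T, u p ≠ 0 ∧ w p ≠ 0 ∧ Nat.Coprime (u p).natAbs (w p).natAbs ∧
      (∃ z : ℕ, 0 < z ∧ u p + w p = (z : ℤ) ^ m) ∧ Small X y ((u p).natAbs * (w p).natAbs) ∧
      Real.log (max |(u p : ℝ)| |(w p : ℝ)|) ≤ H) :
    (T.card : ℝ) ≤ C * y * X ^ (((m : ℝ) + 1) / (2 * m) + ε) * (1 + Real.log H) := by
  classical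
  have hz : ∀ p ∈ T, ∃ z : ℕ, 0 < z ∧ u p + w p = (z : ℤ) ^ m := fun p hp => (hT p hp).2.2.2.1
  choose! z hz using hz
  have hcard : (T.image (fun p => (u p, w p, z p))).card = T.card := by
    refine card_image_of_injOn ?_
    intro p hp q hq h
    simp only [Prod.mk.injEq] at h
    exact hinj p hp q hq h.1 h.2.1
  rw [← hcard]
  refine hC X y H hX hy hH _ ?_
  intro x hx
  obtain ⟨p, hp, rfl⟩ := mem_image.1 hx
  obtain ⟨h1, h2, h3, -, h5, h6⟩ := hT p hp
  obtain ⟨h7, h8⟩ := hz p hp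
  have h9 := small_lr h1 h2 h3 h5
  refine ⟨⟨h8, h1, h2, h7, ?_⟩, h6, h9.1, h9.2.1, h9.2.2⟩
  have : Int.gcd (u p) (w p) = 1 := h3
  rw [this]
  exact one_dvd _

/-- For every `m ≥ 2` and `ε > 0` there is `C` such that for all `X, y, H ≥ 1` there are at most
`C y X ^ ((m + 1) / (2 m) + ε) (1 + log H)` abc triples of height at most `exp H`, one member of
which is a perfect `m`-th power, such that the radical of the product of the two other members is at
most `X` and its prime factors are at most `y`. -/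
theorem result (m : ℕ) (ε : ℝ) (hm : 2 ≤ m) (hε : 0 < ε) :
    ∃ C : ℝ, ∀ X y H : ℝ, 1 ≤ X → 1 ≤ y → 1 ≤ H → (Triples m X y H).Finite ∧
      ((Triples m X y H).ncard : ℝ) ≤
        C * y * X ^ (((m : ℝ) + 1) / (2 * m) + ε) * (1 + Real.log H) := by
  classical
  obtain ⟨C, -, hC⟩ := twoRad (core (gap divis vanish) classes) choose m ε hm hε
  refine ⟨3 * C, fun X y H hX hy hH => ?_⟩
  have hfin : (Triples m X y H).Finite := by
    refine Set.Finite.subset (Finset.finite_toSet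
      ((Finset.range (⌊Real.exp H⌋₊ + 1)) ×ˢ (Finset.range (⌊Real.exp H⌋₊ + 1)))) ?_
    rintro p ⟨h1, h2, -, h4, -⟩
    have h6 : p.1 + p.2 ≤ ⌊Real.exp H⌋₊ := by
      refine Nat.le_floor ?_
      rw [← Real.log_le_iff_le_exp (by exact_mod_cast (by omega : 0 < p.1 + p.2))]
      exact h4
    simp only [Finset.coe_product, Finset.coe_range, Set.mem_prod, Set.mem_Iio]
    omega
  refine ⟨hfin, ?_⟩
  obtain ⟨T, hT⟩ : ∃ T, T = hfin.toFinset := ⟨_, rfl⟩
  have hmem : ∀ p ∈ T, p ∈ Triples m X y H := by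
    intro p hp
    rw [hT] at hp
    exact hfin.mem_toFinset.1 hp
  rw [Set.ncard_eq_toFinset_card _ hfin, ← hT]
  obtain ⟨A1, hA1⟩ : ∃ A, A = T.filter (fun p => ∃ z : ℕ, p.1 + p.2 = z ^ m ∧
    Small X y (p.1 * p.2)) := ⟨_, rfl⟩
  obtain ⟨A2, hA2⟩ : ∃ A, A = T.filter (fun p => ∃ z : ℕ, p.1 = z ^ m ∧
    Small X y ((p.1 + p.2) * p.2)) := ⟨_, rfl⟩
  obtain ⟨A3, hA3⟩ : ∃ A, A = T.filter (fun p => ∃ z : ℕ, p.2 = z ^ m ∧
    Small X y ((p.1 + p.2) * p.1)) := ⟨_, rfl⟩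
  have hcov : T ⊆ A1 ∪ (A2 ∪ A3) := by
    intro p hp
    obtain ⟨-, -, -, -, z, h⟩ := hmem p hp
    rw [mem_union, mem_union, hA1, hA2, hA3, mem_filter, mem_filter, mem_filter]
    rcases h with h | h | h
    · exact Or.inl ⟨hp, z, h⟩
    · exact Or.inr (Or.inl ⟨hp, z, h⟩)
    · exact Or.inr (Or.inr ⟨hp, z, h⟩)
  have hzpos : ∀ {z n : ℕ}, 0 < n → n = z ^ m → 0 < z := by
    intro z n hn h
    rcases Nat.eq_zero_or_pos z with h0 | h0
    · rw [h0, zero_pow (by omega)] at h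
      omega
    · exact h0
  have hlog : ∀ {p : ℕ × ℕ} {a b : ℤ}, p ∈ T → |a| ≤ p.1 + p.2 → |b| ≤ p.1 + p.2 → a ≠ 0 →
      Real.log (max |(a : ℝ)| |(b : ℝ)|) ≤ H := by
    intro p a b hp ha hb h0
    obtain ⟨h1, h2, -, h4, -⟩ := hmem p hp
    refine le_trans (Real.log_le_log ?_ ?_) h4
    · refine lt_max_of_lt_left ?_
      exact abs_pos.2 (by exact_mod_cast h0)
    · refine max_le ?_ ?_
      · exact_mod_cast ha
      · exact_mod_cast hb
  have c1 : (A1.card : ℝ) ≤ C * y * X ^ (((m : ℝ) + 1) / (2 * m) + ε) * (1 + Real.log H) := by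
    refine piece hC hX hy hH A1 (fun p => (p.1 : ℤ)) (fun p => (p.2 : ℤ)) ?_ ?_
    · intro p _ q _ e1 e2
      simp only [Nat.cast_inj] at e1 e2
      exact Prod.ext e1 e2
    · intro p hp
      rw [hA1, mem_filter] at hp
      obtain ⟨hpT, z, hz, hs⟩ := hp
      obtain ⟨h1, h2, h3, h4, -⟩ := hmem p hpT
      refine ⟨by simp; omega, by simp; omega, by simpa using h3, ⟨z, hzpos (by omega) hz, ?_⟩,
        by simpa using hs, hlog hpT ?_ ?_ ?_⟩
      · exact_mod_cast hz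
      · rw [abs_of_nonneg (by positivity)]; omega
      · rw [abs_of_nonneg (by positivity)]; omega
      · simp; omega
  have c2 : (A2.card : ℝ) ≤ C * y * X ^ (((m : ℝ) + 1) / (2 * m) + ε) * (1 + Real.log H) := by
    refine piece hC hX hy hH A2 (fun p => (p.1 : ℤ) + p.2) (fun p => -(p.2 : ℤ)) ?_ ?_
    · intro p _ q _ e1 e2
      have e1 : (p.1 : ℤ) + p.2 = q.1 + q.2 := e1
      have e2 : -(p.2 : ℤ) = -(q.2 : ℤ) := e2
      exact Prod.ext (by omega) (by omega)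
    · intro p hp
      rw [hA2, mem_filter] at hp
      obtain ⟨hpT, z, hz, hs⟩ := hp
      obtain ⟨h1, h2, h3, h4, -⟩ := hmem p hpT
      have e1 : ((p.1 : ℤ) + p.2).natAbs = p.1 + p.2 := by omega
      have e2 : (-(p.2 : ℤ)).natAbs = p.2 := by omega
      refine ⟨by omega, by omega, ?_, ⟨z, hzpos h1 hz, ?_⟩, ?_, hlog hpT ?_ ?_ ?_⟩
      · simp only [e1, e2]
        exact Nat.coprime_add_self_left.2 h3
      · have : ((p.1 : ℤ)) = (z : ℤ) ^ m := by exact_mod_cast hz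
        rw [← this]; ring
      · simp only [e1, e2]
        exact hs
      · rw [abs_of_nonneg (by positivity)]
      · rw [abs_neg, abs_of_nonneg (by positivity)]; omega
      · omega
  have c3 : (A3.card : ℝ) ≤ C * y * X ^ (((m : ℝ) + 1) / (2 * m) + ε) * (1 + Real.log H) := by
    refine piece hC hX hy hH A3 (fun p => (p.1 : ℤ) + p.2) (fun p => -(p.1 : ℤ)) ?_ ?_
    · intro p _ q _ e1 e2
      have e1 : (p.1 : ℤ) + p.2 = q.1 + q.2 := e1
      have e2 : -(p.1 : ℤ) = -(q.1 : ℤ) := e2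
      exact Prod.ext (by omega) (by omega)
    · intro p hp
      rw [hA3, mem_filter] at hp
      obtain ⟨hpT, z, hz, hs⟩ := hp
      obtain ⟨h1, h2, h3, h4, -⟩ := hmem p hpT
      have e1 : ((p.1 : ℤ) + p.2).natAbs = p.1 + p.2 := by omega
      have e2 : (-(p.1 : ℤ)).natAbs = p.1 := by omega
      refine ⟨by omega, by omega, ?_, ⟨z, hzpos h2 hz, ?_⟩, ?_, hlog hpT ?_ ?_ ?_⟩
      · simp only [e1, e2]
        rw [add_comm]
        exact Nat.coprime_add_self_left.2 h3.symm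
      · have : ((p.2 : ℤ)) = (z : ℤ) ^ m := by exact_mod_cast hz
        rw [← this]; ring
      · simp only [e1, e2]
        exact hs
      · rw [abs_of_nonneg (by positivity)]
      · rw [abs_neg, abs_of_nonneg (by positivity)]; omega
      · omega
  have hc : (T.card : ℝ) ≤ A1.card + (A2.card + A3.card) := by
    have h1 := card_le_card hcov
    have h2 := card_union_le A1 (A2 ∪ A3)
    have h3 := card_union_le A2 A3
    exact_mod_cast h1.trans (h2.trans (by omega))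
  linarith

end Pool.Agent.Results.MP_2ec8a3_nt.PowerPlusTwoSmallRadicals
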