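import Pool.Agent.Q130.SZ.Line
import Pool.Agent.Y854.GM.Win
import Pool.Agent.Results.MP_2ec8a3_nt.RadicalSet

/-!
# Oesterlé's inequality for the abc triples of all heights with a radical near a sequence

Let `v ≥ 1` be a sequence of exponent of convergence at most `τ` (for `v_n = (n + 1) ^ κ` this is `1 / κ`, for
`v_n = b ^ n` it is `0`), and `0 ≤ θ < 1`. We consider the abc triples, of whatever height, whose radical `R` satisfies
`|R - α v_n| ≤ v_n ^ θ` for some `n`.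

1. For all `α > 0` outside a set of Hausdorff dimension at most `τ / (1 - θ)` and all `N` there is `M` such that
   `c < R ^ M` for all those of them in which at most `N` different exponents occur in the factorisation of `abc`.
   For given countably many sequences of exponent of convergence `0` the exceptional `α` for all of them, all
   `θ < 1` and all `N` together form a set of dimension zero.
2. For all `N` and `ε > 0` there is `M`, independent of the sequence, such that for all `α > 0` outside a set of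
   dimension at most `(ε + τ) / (1 - θ)` the same is true for all but finitely many `n`.
3. For all `M > 1 / 3` there is `ν > 0` such that for all `α > 0` outside a set of dimension at most
   `(2 / 3 - ν + τ) / (1 - θ)` and all but finitely many `n` every `R` with `|R - α v_n| ≤ v_n ^ θ` is the radical of
   at most one abc triple, and for this triple `c < R ^ M`.
-/

set_option autoImplicit false

namespace Pool.Agent.Results.MP_2ec8a3_nt.RadicalsNearSequences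

open Finset

/-- the product of the primes dividing `n` -/
def radical (n : ℕ) : ℕ := ∏ p ∈ n.primeFactors, p

/-- the abc triples `(a, b, a + b)`, written `(a, b)`: `a` and `b` are coprime and `1 ≤ a ≤ b` -/
def IsTriple (t : ℕ × ℕ) : Prop := 0 < t.1 ∧ t.1 ≤ t.2 ∧ Nat.Coprime t.1 t.2

/-- the product `abc` for the triple `(a, b, a + b)` written `(a, b)` -/
def prod3 (t : ℕ × ℕ) : ℕ := t.1 * t.2 * (t.1 + t.2)

/-- the radical of `abc` -/
def rad3 (t : ℕ × ℕ) : ℕ := radical (prod3 t)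

/-- the different exponents in the factorisation of `abc` -/
def exponents (t : ℕ × ℕ) : Finset ℕ := (prod3 t).primeFactors.image (prod3 t).factorization

/-- the exponent of convergence of the sequence `v` is at most `τ` -/
def ExpLe (v : ℕ → ℝ) (τ : ℝ) : Prop := ∀ t : ℝ, τ < t → Summable (fun n : ℕ => (v n) ^ (-t))

lemma radical_pos (n : ℕ) : 0 < radical n :=
  Finset.prod_pos fun _ hp => (Nat.prime_of_mem_primeFactors hp).pos

/-- the radical of a triple is at least two -/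
lemma two_le_rad3 {t : ℕ × ℕ} (ht : IsTriple t) : 2 ≤ rad3 t := by
  obtain ⟨ha, hab, -⟩ := ht
  have hb : 0 < t.2 := lt_of_lt_of_le ha hab
  have hn : 2 ≤ prod3 t := by
    have h1 : 1 ≤ t.1 * t.2 := Nat.mul_pos ha hb
    calc 2 ≤ 1 * (t.1 + t.2) := by omega
      _ ≤ _ := Nat.mul_le_mul_right _ h1
  obtain ⟨p, hp, hpn⟩ := Nat.exists_prime_and_dvd (n := prod3 t) (by omega)
  have h1 : p ∣ rad3 t :=
    Finset.dvd_prod_of_mem _ (Nat.mem_primeFactors.2 ⟨hp, hpn, by omega⟩)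
  exact hp.two_le.trans (Nat.le_of_dvd (radical_pos _) h1)

/-- a member as a product of few powers -/
lemma nb_member {m m' N : ℕ} {Y : ℝ} (hm : 0 < m) (hm' : 0 < m') (hco : Nat.Coprime m m')
    (hY : ((∏ p ∈ (m * m').primeFactors, p : ℕ) : ℝ) ≤ Y)
    (hN : ((m * m').primeFactors.image (m * m').factorization).card ≤ N) :
    Pool.Agent.Y913.Nb.NB N Y m := by
  have hsub : m.primeFactors ⊆ (m * m').primeFactors :=
    Nat.primeFactors_mono (Dvd.intro _ rfl) (Nat.mul_pos hm hm').ne'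
  have hpos : 0 < ∏ p ∈ (m * m').primeFactors, p :=
    Finset.prod_pos fun _ hp => (Nat.prime_of_mem_primeFactors hp).pos
  have hY1 : 1 ≤ Y := le_trans (by exact_mod_cast hpos) hY
  have h1 := Pool.Agent.Q130.SZ.nb_of_exps ∅ (n := N) hm hY1 (by simp) (by
      rw [sdiff_empty]
      refine le_trans ?_ hY
      have : ∏ p ∈ m.primeFactors, p ≤ ∏ p ∈ (m * m').primeFactors, p :=
        prod_le_prod_of_subset_of_one_le' hsub fun p hp _ =>
          (Nat.prime_of_mem_primeFactors hp).pos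
      exact_mod_cast this) (by
      rw [sdiff_empty]
      refine (card_le_card ?_).trans hN
      intro e he
      rw [mem_image] at he ⊢
      obtain ⟨p, hp, rfl⟩ := he
      refine ⟨p, hsub hp, ?_⟩
      rw [Nat.factorization_mul hm.ne' hm'.ne', Finsupp.add_apply]
      have : m'.factorization p = 0 := by
        refine Nat.factorization_eq_zero_of_not_dvd fun hd => ?_
        have hpp := Nat.prime_of_mem_primeFactors hp
        have h2 := Nat.Coprime.eq_one_of_dvd (Nat.Coprime.coprime_dvd_left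
          (Nat.dvd_of_mem_primeFactors hp) hco) hd
        exact hpp.one_lt.ne' h2
      rw [this, add_zero])
  simpa using h1

/-- the triples are products of few powers -/
lemma np_of {t : ℕ × ℕ} (ht : IsTriple t) {N : ℕ} (hN : (exponents t).card ≤ N) {Y : ℝ}
    (hY : (rad3 t : ℝ) ≤ Y) : Pool.Agent.Q130.SZ.NP N Y t := by
  obtain ⟨ha, hab, hco⟩ := ht
  have hb : 0 < t.2 := lt_of_lt_of_le ha hab
  have hc : 0 < t.1 + t.2 := by omega
  have hac : Nat.Coprime t.1 (t.1 + t.2) := by simpa using hco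
  have hbc : Nat.Coprime t.2 (t.1 + t.2) := by simpa using hco.symm
  refine ⟨ha, hb, hco, ?_, ?_, ?_⟩
  · refine nb_member ha (Nat.mul_pos hb hc) (hco.mul_right hac) ?_ ?_
    · rw [← mul_assoc]; exact hY
    · rw [← mul_assoc]; exact hN
  · have e : t.2 * (t.1 * (t.1 + t.2)) = prod3 t := by unfold prod3; ring
    refine nb_member hb (Nat.mul_pos ha hc) (hco.symm.mul_right hbc) ?_ ?_
    · rw [e]; exact hY
    · rw [e]; exact hN
  · have e : (t.1 + t.2) * (t.1 * t.2) = prod3 t := by unfold prod3; ring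
    refine nb_member hc (Nat.mul_pos ha hb) (hac.symm.mul_right hbc.symm) ?_ ?_
    · rw [e]; exact hY
    · rw [e]; exact hN

/-- the triples with few exponents and small radical are finitely many -/
lemma finite_few (N : ℕ) (B : ℝ) :
    {t : ℕ × ℕ | IsTriple t ∧ (exponents t).card ≤ N ∧ (rad3 t : ℝ) ≤ B}.Finite := by
  rcases lt_or_ge B 1 with hB | hB
  · refine Set.finite_empty.subset ?_
    rintro t ⟨h1, -, h3⟩
    have := two_le_rad3 h1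
    have h4 : (2 : ℝ) ≤ rad3 t := by exact_mod_cast this
    linarith
  obtain ⟨L, C, -, -, h⟩ := Pool.Agent.Q130.SZ.np_total N
  exact (Pool.Agent.Y913.Sm.finite_of_bound (N := C * B ^ L) fun Q hQ =>
    h B hB Q fun q hq => np_of (hQ q hq).1 (hQ q hq).2.1 (hQ q hq).2.2).1

/-- for bounded radicals -/
lemma small_radicals (N : ℕ) (B : ℝ) : ∃ M : ℝ, ∀ t, IsTriple t → (exponents t).card ≤ N →
    (rad3 t : ℝ) ≤ B → ((t.1 + t.2 : ℕ) : ℝ) < (rad3 t : ℝ) ^ M := by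
  have hfin := finite_few N B
  obtain ⟨D, hD⟩ : ∃ D : ℕ, ∀ t ∈ {t : ℕ × ℕ | IsTriple t ∧ (exponents t).card ≤ N ∧
      (rad3 t : ℝ) ≤ B}, t.1 + t.2 ≤ D := by
    obtain ⟨D, hD⟩ := (hfin.image fun t => t.1 + t.2).bddAbove
    exact ⟨D, fun t ht => hD ⟨t, ht, rfl⟩⟩
  obtain ⟨K, hK⟩ := pow_unbounded_of_one_lt (D : ℝ) (one_lt_two : (1 : ℝ) < 2)
  refine ⟨K, fun t h1 h2 h3 => ?_⟩
  have h4 : (2 : ℝ) ≤ rad3 t := by exact_mod_cast two_le_rad3 h1
  rw [Real.rpow_natCast]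
  calc ((t.1 + t.2 : ℕ) : ℝ) ≤ D := by exact_mod_cast hD t ⟨h1, h2, h3⟩
    _ < 2 ^ K := hK
    _ ≤ _ := pow_le_pow_left₀ (by norm_num) h4 K

/-- a fixed exponent for all sequences -/
lemma fixed (N : ℕ) {ε : ℝ} (hε : 0 < ε) : ∃ M : ℝ, ∀ {v : ℕ → ℝ} {τ θ : ℝ},
    (∀ n, 1 ≤ v n) → 0 ≤ τ → ExpLe v τ → θ < 1 →
    ∃ E : Set ℝ, dimH E ≤ ENNReal.ofReal ((ε + τ) / (1 - θ)) ∧ ∀ α : ℝ, 0 < α → α ∉ E →
      ∃ n₀ : ℕ, ∀ n : ℕ, n₀ ≤ n → ∀ t, IsTriple t → (exponents t).card ≤ N →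
        |(rad3 t : ℝ) - α * v n| ≤ (v n) ^ θ → ((t.1 + t.2 : ℕ) : ℝ) < (rad3 t : ℝ) ^ M := by
  obtain ⟨K, C, hK, hC, h⟩ := Pool.Agent.Q130.SZ.np_core N ε 1 1 1 hε le_rfl one_pos le_rfl
  refine ⟨K, fun {v τ θ} hv hτ hE hθ1 => ?_⟩
  obtain ⟨E, hE1, hE2⟩ := Pool.Agent.Y854.GM.windows
    {t : ℕ × ℕ | IsTriple t ∧ (exponents t).card ≤ N ∧
      (rad3 t : ℝ) ^ K ≤ ((t.1 + t.2 : ℕ) : ℝ)} (fun t => (rad3 t : ℝ)) (θ := θ) (s := ε)
    hv hτ hE hε.le hθ1 (by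
      intro δ hδ
      refine ⟨C, fun X hX => ?_⟩
      have h1 := Pool.Agent.Y913.Sm.finite_of_bound (S := {t | t ∈ {t : ℕ × ℕ | IsTriple t ∧
        (exponents t).card ≤ N ∧ (rad3 t : ℝ) ^ K ≤ ((t.1 + t.2 : ℕ) : ℝ)} ∧
        (rad3 t : ℝ) ≤ X}) (N := C * X ^ ε) (fun Q hQ => h X hX Q (by
          intro q hq
          obtain ⟨⟨g1, g2, g3⟩, g4⟩ := hQ q hq
          refine ⟨rad3 q, ?_, g4, ?_, ?_⟩
          · exact_mod_cast (radical_pos _ : 0 < rad3 q)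
          · rw [one_mul, pow_one]
            exact np_of g1 g2 le_rfl
          · rw [one_mul]
            exact g3))
      refine ⟨h1.1, h1.2.trans ?_⟩
      exact mul_le_mul_of_nonneg_left (Real.rpow_le_rpow_of_exponent_le hX (by linarith)) hC.le)
  refine ⟨E, hE1, fun α hα hαE => ?_⟩
  obtain ⟨n₀, hn⟩ := hE2 α hα hαE
  refine ⟨n₀, fun n hn1 t h1 h2 h3 => ?_⟩
  by_contra hcon
  push Not at hcon
  exact absurd (hn n hn1 t ⟨h1, h2, hcon⟩) (not_lt.2 h3)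

lemma lt_mono {t : ℕ × ℕ} {M M' : ℝ} (hM : M ≤ M')
    (h : ((t.1 + t.2 : ℕ) : ℝ) < (rad3 t : ℝ) ^ M) :
    ((t.1 + t.2 : ℕ) : ℝ) < (rad3 t : ℝ) ^ M' := by
  refine h.trans_le (Real.rpow_le_rpow_of_exponent_le ?_ hM)
  exact_mod_cast (radical_pos _ : 0 < rad3 t)

/-- some exponent, for one `N` -/
lemma some_M {v : ℕ → ℝ} {τ θ : ℝ} (N : ℕ) (hv : ∀ n, 1 ≤ v n) (hτ : 0 ≤ τ) (hE : ExpLe v τ)
    (hθ1 : θ < 1) :
    ∃ E : Set ℝ, dimH E ≤ ENNReal.ofReal (τ / (1 - θ)) ∧ ∀ α : ℝ, 0 < α → α ∉ E →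
      ∃ M : ℝ, ∀ n : ℕ, ∀ t, IsTriple t → (exponents t).card ≤ N →
        |(rad3 t : ℝ) - α * v n| ≤ (v n) ^ θ → ((t.1 + t.2 : ℕ) : ℝ) < (rad3 t : ℝ) ^ M := by
  have h1θ : 0 < 1 - θ := by linarith
  have hfix : ∀ k : ℕ, ∃ M : ℝ, ∃ E : Set ℝ,
      dimH E ≤ ENNReal.ofReal ((1 / ((k : ℝ) + 1) + τ) / (1 - θ)) ∧
      ∀ α : ℝ, 0 < α → α ∉ E → ∃ n₀ : ℕ, ∀ n : ℕ, n₀ ≤ n → ∀ t, IsTriple t →
        (exponents t).card ≤ N → |(rad3 t : ℝ) - α * v n| ≤ (v n) ^ θ →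
          ((t.1 + t.2 : ℕ) : ℝ) < (rad3 t : ℝ) ^ M := by
    intro k
    obtain ⟨M, hM⟩ := fixed N (ε := 1 / ((k : ℝ) + 1)) (by positivity)
    exact ⟨M, hM hv hτ hE hθ1⟩
  choose M E hE1 hE2 using hfix
  refine ⟨⋂ k, E k, ?_, fun α hα hαE => ?_⟩
  · apply ENNReal.le_of_forall_pos_le_add
    intro ε hε _
    have hε' : (0 : ℝ) < ε := by exact_mod_cast hε
    obtain ⟨k, hk⟩ := exists_nat_one_div_lt (mul_pos hε' h1θ)
    refine (dimH_mono (Set.iInter_subset E k)).trans ((hE1 k).trans ?_)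
    have h2 : (1 / ((k : ℝ) + 1) + τ) / (1 - θ) ≤ τ / (1 - θ) + ε := by
      rw [div_le_iff₀ h1θ, add_mul, div_mul_cancel₀ _ h1θ.ne', add_comm]
      linarith
    calc ENNReal.ofReal ((1 / ((k : ℝ) + 1) + τ) / (1 - θ))
        ≤ ENNReal.ofReal (τ / (1 - θ) + ε) := ENNReal.ofReal_le_ofReal h2
      _ = ENNReal.ofReal (τ / (1 - θ)) + ε := by
        rw [ENNReal.ofReal_add (by positivity) (by positivity), ENNReal.ofReal_coe_nnreal]
  · rw [Set.mem_iInter, not_forall] at hαE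
    obtain ⟨k, hk⟩ := hαE
    obtain ⟨n₀, hn⟩ := hE2 k α hα hk
    set B : ℝ := ∑ n ∈ range n₀, |α * v n + (v n) ^ θ| with hB
    obtain ⟨M₁, hM₁⟩ := small_radicals N B
    refine ⟨max (M k) M₁, fun n t h1 h2 h3 => ?_⟩
    rcases lt_or_ge n n₀ with h | h
    · refine lt_mono (le_max_right _ _) (hM₁ t h1 h2 ?_)
      have h4 : (rad3 t : ℝ) ≤ α * v n + (v n) ^ θ := by
        have := (abs_le.1 h3).2
        linarith
      exact (h4.trans (le_abs_self _)).trans (Finset.single_le_sum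
        (f := fun n => |α * v n + (v n) ^ θ|) (fun _ _ => abs_nonneg _) (mem_range.2 h))
    · exact lt_mono (le_max_left _ _) (hn n h t h1 h2 h3)

/-- some exponent, for all `N` -/
lemma some_M_all {v : ℕ → ℝ} {τ θ : ℝ} (hv : ∀ n, 1 ≤ v n) (hτ : 0 ≤ τ) (hE : ExpLe v τ)
    (hθ1 : θ < 1) :
    ∃ E : Set ℝ, dimH E ≤ ENNReal.ofReal (τ / (1 - θ)) ∧ ∀ α : ℝ, 0 < α → α ∉ E → ∀ N : ℕ,
      ∃ M : ℝ, ∀ n : ℕ, ∀ t, IsTriple t → (exponents t).card ≤ N →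
        |(rad3 t : ℝ) - α * v n| ≤ (v n) ^ θ → ((t.1 + t.2 : ℕ) : ℝ) < (rad3 t : ℝ) ^ M := by
  choose E hE1 hE2 using fun N : ℕ => some_M N hv hτ hE hθ1
  refine ⟨⋃ N, E N, ?_, fun α hα hαE N => ?_⟩
  · rw [dimH_iUnion]
    exact iSup_le hE1
  · exact hE2 N α hα fun h => hαE (Set.mem_iUnion.2 ⟨N, h⟩)

/-- **Theorem.** -/
theorem result :
    -- (1) few exponents, some `M` for all `n`
    (∀ (v : ℕ → ℝ) (τ θ : ℝ), (∀ n, 1 ≤ v n) → 0 ≤ τ → ExpLe v τ → 0 ≤ θ → θ < 1 →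
      ∃ E : Set ℝ, dimH E ≤ ENNReal.ofReal (τ / (1 - θ)) ∧ ∀ α : ℝ, 0 < α → α ∉ E → ∀ N : ℕ,
        ∃ M : ℝ, ∀ n : ℕ, ∀ t, IsTriple t → (exponents t).card ≤ N →
          |(rad3 t : ℝ) - α * v n| ≤ (v n) ^ θ →
            ((t.1 + t.2 : ℕ) : ℝ) < (rad3 t : ℝ) ^ M) ∧
    (∀ v : ℕ → ℕ → ℝ, (∀ i n, 1 ≤ v i n) → (∀ i, ExpLe (v i) 0) →
      ∃ E : Set ℝ, dimH E = 0 ∧ ∀ α : ℝ, 0 < α → α ∉ E → ∀ (i : ℕ) (θ : ℝ), θ < 1 → ∀ N : ℕ,
        ∃ M : ℝ, ∀ n : ℕ, ∀ t, IsTriple t → (exponents t).card ≤ N →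
          |(rad3 t : ℝ) - α * v i n| ≤ (v i n) ^ θ →
            ((t.1 + t.2 : ℕ) : ℝ) < (rad3 t : ℝ) ^ M) ∧
    -- (2) few exponents, `M` independent of the sequence
    (∀ (N : ℕ) (ε : ℝ), 0 < ε → ∃ M : ℝ, ∀ (v : ℕ → ℝ) (τ θ : ℝ), (∀ n, 1 ≤ v n) → 0 ≤ τ →
      ExpLe v τ → 0 ≤ θ → θ < 1 →
      ∃ E : Set ℝ, dimH E ≤ ENNReal.ofReal ((ε + τ) / (1 - θ)) ∧ ∀ α : ℝ, 0 < α → α ∉ E →
        ∃ n₀ : ℕ, ∀ n : ℕ, n₀ ≤ n → ∀ t, IsTriple t → (exponents t).card ≤ N →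
          |(rad3 t : ℝ) - α * v n| ≤ (v n) ^ θ →
            ((t.1 + t.2 : ℕ) : ℝ) < (rad3 t : ℝ) ^ M) ∧
    -- (3) all triples, all `M > 1 / 3`
    (∀ M : ℝ, 1 / 3 < M → ∃ ν : ℝ, 0 < ν ∧ ∀ (v : ℕ → ℝ) (τ θ : ℝ), (∀ n, 1 ≤ v n) → 0 ≤ τ →
      ExpLe v τ → 0 ≤ θ → θ < 1 →
      ∃ E : Set ℝ, dimH E ≤ ENNReal.ofReal ((2 / 3 - ν + τ) / (1 - θ)) ∧ ∀ α : ℝ, 0 < α →
        α ∉ E → ∃ n₀ : ℕ, ∀ n : ℕ, n₀ ≤ n → ∀ t, IsTriple t →
          |(rad3 t : ℝ) - α * v n| ≤ (v n) ^ θ →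
            ((t.1 + t.2 : ℕ) : ℝ) < (rad3 t : ℝ) ^ M ∧
            ∀ t', IsTriple t' → rad3 t' = rad3 t → t' = t) ∧
    -- examples of sequences
    (∀ κ : ℝ, 0 < κ → ExpLe (fun n : ℕ => ((n : ℝ) + 1) ^ κ) (1 / κ)) ∧
    (∀ b : ℝ, 1 < b → ExpLe (fun n : ℕ => b ^ n) 0) := by
  refine ⟨fun v τ θ hv hτ hE _ hθ1 => some_M_all hv hτ hE hθ1, fun v hv hE => ?_,
    fun N ε hε => ?_, fun M hM => ?_, fun κ hκ => Pool.Agent.Y854.GM.expLe_pow κ hκ,
    fun b hb => Pool.Agent.Y854.GM.expLe_geom b hb⟩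
  · have hθ : ∀ k : ℕ, 1 - 1 / ((k : ℝ) + 1) < 1 := by
      intro k
      have : 0 < 1 / ((k : ℝ) + 1) := by positivity
      linarith
    choose E hE1 hE2 using fun p : ℕ × ℕ => some_M_all (hv p.1) le_rfl (hE p.1) (hθ p.2)
    refine ⟨⋃ p, E p, ?_, fun α hα hαE i θ hθ1 N => ?_⟩
    · rw [dimH_iUnion, ← nonpos_iff_eq_zero]
      refine iSup_le fun p => (hE1 p).trans ?_
      rw [zero_div, ENNReal.ofReal_zero]
    · obtain ⟨k, hk⟩ := exists_nat_one_div_lt (show 0 < 1 - θ by linarith)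
      have h1 : α ∉ E (i, k) := fun h => hαE (Set.mem_iUnion.2 ⟨_, h⟩)
      obtain ⟨M, hM⟩ := hE2 (i, k) α hα h1 N
      refine ⟨M, fun n t h1 h2 h3 => hM n t h1 h2 (h3.trans ?_)⟩
      exact Real.rpow_le_rpow_of_exponent_le (hv i n) (by linarith)
  · obtain ⟨M, hM⟩ := fixed N hε
    exact ⟨M, fun v τ θ hv hτ hE _ hθ1 => hM hv hτ hE hθ1⟩
  · obtain ⟨-, -, hreg⟩ := RadicalSet.result
    obtain ⟨ν, C, hν, hC, h⟩ := hreg M hM
    refine ⟨min ν (2 / 3), lt_min hν (by norm_num), fun v τ θ hv hτ hE _ hθ1 => ?_⟩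
    obtain ⟨E, hE1, hE2⟩ := Pool.Agent.Y854.GM.windows
      {t : ℕ × ℕ | IsTriple t ∧ ¬ RadicalSet.Regular M (rad3 t)}
      (fun t => (rad3 t : ℝ)) (θ := θ) (s := 2 / 3 - min ν (2 / 3)) hv hτ hE
      (by linarith [min_le_right ν (2 / 3 : ℝ)]) hθ1 (by
        intro ε hε
        refine ⟨C, fun X hX => ?_⟩
        have hsub : {t | t ∈ {t : ℕ × ℕ | IsTriple t ∧ ¬ RadicalSet.Regular M (rad3 t)} ∧
            (rad3 t : ℝ) ≤ X} =
            {t | t ∈ RadicalSet.triples X ∧ ¬ RadicalSet.Regular M (RadicalSet.rad3 t)} := by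
          ext t
          exact ⟨fun h => ⟨⟨h.1.1, h.2⟩, h.1.2⟩, fun h => ⟨⟨h.1.1, h.2⟩, h.1.2⟩⟩
        rw [hsub]
        obtain ⟨hfin, -⟩ := RadicalSet.result.1 X
        refine ⟨hfin.subset fun t ht => ht.1, (h X hX).2.trans ?_⟩
        refine mul_le_mul_of_nonneg_left (Real.rpow_le_rpow_of_exponent_le hX ?_) hC.le
        linarith [min_le_left ν (2 / 3 : ℝ)])
    refine ⟨E, hE1, fun α hα hαE => ?_⟩
    obtain ⟨n₀, hn⟩ := hE2 α hα hαE
    refine ⟨n₀, fun n hn1 t ht hw => ?_⟩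
    have hregt : RadicalSet.Regular M (rad3 t) := by
      by_contra hcon
      exact absurd (hn n hn1 t ⟨ht, hcon⟩) (not_lt.2 hw)
    obtain ⟨t₀, ht₀, hr₀, huniq, hlt⟩ := hregt
    have htt : t = t₀ := huniq t ht rfl
    subst htt
    exact ⟨hlt, fun t' ht' hR' => huniq t' ht' hR'⟩

end Pool.Agent.Results.MP_2ec8a3_nt.RadicalsNearSequences
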